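import Mathlib

set_option autoImplicit false

/-!
# A recursion with a gain and one more term: exponent 2

Extension of `Pool.Agent.TH364.FA.fek2` (helper364) by the term `(1/8) f (2m) (L n)`.  `fek3m`
assumes the recursion only for `m ≥ m1` and concludes for `d ≥ m1`; `fek3` is the case `m1 = 1`.
-/

namespace Pool.Agent.TH126.FA

/-- the exponent `2 - t` at the powers of two -/
def PE (f : ℕ → ℕ → ℝ) (m1 : ℕ) (t : ℝ) : Prop :=
  ∃ C : ℝ, 0 ≤ C ∧ ∀ m j : ℕ, m1 ≤ m → f m (2 ^ j * m) ≤ C * (2 : ℝ) ^ ((t - 2) * (j : ℝ))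

lemma PE_two (f : ℕ → ℕ → ℝ) (m1 : ℕ) (h1 : ∀ d k, f d k ≤ 1) : PE f m1 2 := by
  refine ⟨1, zero_le_one, fun m j _ => ?_⟩
  have : (2 : ℝ) ^ (((2 : ℝ) - 2) * (j : ℝ)) = 1 := by rw [sub_self, zero_mul, Real.rpow_zero]
  rw [this, one_mul]
  exact h1 _ _

lemma PE_step (f : ℕ → ℕ → ℝ) (h0 : ∀ d k, 0 ≤ f d k) (h1 : ∀ d k, f d k ≤ 1)
    (anti : ∀ d k k', d ≤ k → k ≤ k' → f d k' ≤ f d k)
    (m1 : ℕ) (hm1 : 1 ≤ m1)
    (L : ℕ) (hL : 1 ≤ L) (C1 C2 c0 : ℝ) (hC1 : 0 < C1) (hC2 : 0 < C2) (hc0 : 0 < c0)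
    (hrec : ∀ m K n : ℕ, m1 ≤ m → 1 ≤ K → K * m ≤ n →
      f m (L * n) ≤ C1 * (K:ℝ) ^ 2 * ((m:ℝ) / n) ^ 2 +
        C2 * (K:ℝ) ^ (-c0) * (f m (K * m) * f (K * m) n) + (1/8) * f (2 * m) (L * n))
    (t t' : ℝ) (ht' : 0 ≤ t') (ht : t ≤ t' + c0 / 2) (h : PE f m1 t) : PE f m1 t' := by
  obtain ⟨C, hC0, hC⟩ := h
  obtain ⟨l, hl⟩ : ∃ l : ℕ, L ≤ 2 ^ l := ⟨L, Nat.lt_two_pow_self.le⟩
  -- the choice of `k`
  obtain ⟨k, hk1, hk⟩ : ∃ k : ℕ, 1 ≤ k ∧ 4 * C2 * C * 4 ^ l * (2 : ℝ) ^ (-(c0 / 2) * (k : ℝ)) ≤ 1 := by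
    obtain ⟨q, hq⟩ : ∃ q : ℝ, q = (2 : ℝ) ^ (-(c0 / 2)) := ⟨_, rfl⟩
    have hq0 : 0 ≤ q := by rw [hq]; positivity
    have hq1 : q < 1 := by
      rw [hq]
      exact Real.rpow_lt_one_of_one_lt_of_neg (by norm_num) (by linarith)
    obtain ⟨D, hD⟩ : ∃ D : ℝ, D = 4 * C2 * C * 4 ^ l := ⟨_, rfl⟩
    have hD0 : 0 ≤ D := by rw [hD]; positivity
    obtain ⟨k, hk⟩ := exists_pow_lt_of_lt_one (show 0 < 1 / (D + 1) by positivity) hq1
    refine ⟨k + 1, by omega, ?_⟩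
    rw [← hD, Real.rpow_mul (by norm_num), ← hq, Real.rpow_natCast]
    have h2 : q ^ (k + 1) ≤ 1 / (D + 1) := by
      calc q ^ (k + 1) ≤ q ^ k := pow_le_pow_of_le_one hq0 hq1.le (by omega)
        _ ≤ _ := hk.le
    calc D * q ^ (k + 1) ≤ D * (1 / (D + 1)) := mul_le_mul_of_nonneg_left h2 hD0
      _ ≤ 1 := by
        rw [mul_one_div, div_le_one (by positivity)]
        linarith
  obtain ⟨C', hC'⟩ : ∃ C' : ℝ, C' = (1 + 4 * C1) * 4 ^ (k + l) := ⟨_, rfl⟩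
  have hC'0 : 0 ≤ C' := by rw [hC']; positivity
  have h4 : ∀ j : ℕ, ((1 : ℝ) / 4 ^ j) ≤ (2 : ℝ) ^ ((t' - 2) * (j : ℝ)) := by
    intro j
    have h5 : ((1 : ℝ) / 4 ^ j) = (2 : ℝ) ^ ((-2 : ℝ) * (j : ℝ)) := by
      rw [Real.rpow_mul (by norm_num), Real.rpow_natCast, Real.rpow_neg (by norm_num), one_div, inv_pow]
      norm_num
    rw [h5]
    apply Real.rpow_le_rpow_of_exponent_le (by norm_num)
    apply mul_le_mul_of_nonneg_right (by linarith) (Nat.cast_nonneg _)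
  -- the bound for `f m (L 2^j m)`
  have key : ∀ j m : ℕ, m1 ≤ m → f m (L * (2 ^ j * m)) ≤ C' * (2 : ℝ) ^ ((t' - 2) * (j : ℝ)) := by
    intro j
    induction j using Nat.strong_induction_on with
    | _ j ih =>
      intro m hm
      have hm0 : 0 < m := by omega
      have hmr : (0 : ℝ) < m := by exact_mod_cast hm0
      rcases Nat.lt_or_ge j (k + l) with hj | hj
      · refine (h1 _ _).trans ?_
        have h5 : (1 : ℝ) / 4 ^ (k + l) ≤ 1 / 4 ^ j :=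
          one_div_le_one_div_of_le (by positivity) (pow_le_pow_right₀ (by norm_num) hj.le)
        have h6 := h5.trans (h4 j)
        calc (1 : ℝ) ≤ 1 + 4 * C1 := by linarith
          _ = C' * (1 / 4 ^ (k + l)) := by rw [hC']; field_simp
          _ ≤ _ := mul_le_mul_of_nonneg_left h6 hC'0
      · obtain ⟨i, hi⟩ : ∃ i : ℕ, j = i + (k + l) := ⟨j - (k + l), by omega⟩
        have e2 := hrec m (2 ^ k) (2 ^ j * m) hm Nat.one_le_two_pow
          (Nat.mul_le_mul_right _ (Nat.pow_le_pow_right (by norm_num) (by omega)))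
        have e3 := hC m k hm
        have hmk : m1 ≤ 2 ^ k * m :=
          hm.trans (Nat.le_mul_of_pos_left m (Nat.two_pow_pos k))
        have e4 := ih i (by omega) (2 ^ k * m) hmk
        have e5 : f (2 ^ k * m) (2 ^ j * m) ≤ f (2 ^ k * m) (L * (2 ^ i * (2 ^ k * m))) := by
          apply anti
          · calc 2 ^ k * m = 1 * (1 * (2 ^ k * m)) := by ring
              _ ≤ L * (2 ^ i * (2 ^ k * m)) :=
                Nat.mul_le_mul hL (Nat.mul_le_mul_right _ Nat.one_le_two_pow)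
          · calc L * (2 ^ i * (2 ^ k * m)) ≤ 2 ^ l * (2 ^ i * (2 ^ k * m)) :=
                Nat.mul_le_mul_right _ hl
              _ = 2 ^ j * m := by rw [hi, pow_add, pow_add]; ring
        have e6 := e5.trans e4
        have e7 := ih (j - 1) (by omega) (2 * m) (by omega)
        have e8 : 2 ^ (j - 1) * (2 * m) = 2 ^ j * m := by
          obtain ⟨j', hj'⟩ : ∃ j', j = j' + 1 := ⟨j - 1, by omega⟩
          rw [hj', Nat.add_sub_cancel, pow_succ]
          ring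
        rw [e8] at e7
        -- third term
        have g0 : (1 / 8 : ℝ) * f (2 * m) (L * (2 ^ j * m)) ≤
            C' / 2 * (2 : ℝ) ^ ((t' - 2) * (j : ℝ)) := by
          have h6 : ((j - 1 : ℕ) : ℝ) = (j : ℝ) - 1 := by
            rw [Nat.cast_sub (by omega), Nat.cast_one]
          rw [h6] at e7
          have h7 : (2 : ℝ) ^ ((t' - 2) * ((j : ℝ) - 1)) ≤
              4 * (2 : ℝ) ^ ((t' - 2) * (j : ℝ)) := by
            have h8 : (t' - 2) * ((j : ℝ) - 1) = (2 - t') + (t' - 2) * (j : ℝ) := by ring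
            rw [h8, Real.rpow_add (by norm_num)]
            apply mul_le_mul_of_nonneg_right _ (by positivity)
            calc (2 : ℝ) ^ (2 - t') ≤ (2 : ℝ) ^ (2 : ℝ) :=
                Real.rpow_le_rpow_of_exponent_le (by norm_num) (by linarith)
              _ = 4 := by norm_num
          calc (1 / 8 : ℝ) * f (2 * m) (L * (2 ^ j * m)) ≤
              (1 / 8) * (C' * (4 * (2 : ℝ) ^ ((t' - 2) * (j : ℝ)))) := by
                apply mul_le_mul_of_nonneg_left _ (by norm_num)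
                exact e7.trans (mul_le_mul_of_nonneg_left h7 hC'0)
            _ = _ := by ring
        -- first term
        have g1 : C1 * (((2 ^ k : ℕ) : ℝ)) ^ 2 * ((m:ℝ) / ((2 ^ j * m : ℕ) : ℝ)) ^ 2 =
            C1 * 4 ^ k * (1 / 4 ^ j) := by
          push_cast
          have h6 : (m : ℝ) / (2 ^ j * m) = 1 / 2 ^ j := by field_simp
          rw [h6, div_pow, one_pow, ← pow_mul, ← pow_mul, mul_comm k 2, mul_comm j 2, pow_mul,
            pow_mul]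
          norm_num
        have g2 : C1 * 4 ^ k * (1 / 4 ^ j) ≤ C' / 4 * (2 : ℝ) ^ ((t' - 2) * (j : ℝ)) := by
          have h11 : (0 : ℝ) < 4 ^ k := by positivity
          have h12 : (1 : ℝ) ≤ 4 ^ l := one_le_pow₀ (by norm_num)
          have h13 : C1 * 4 ^ k ≤ C' / 4 := by
            rw [hC', pow_add]
            have h14 : (0 : ℝ) < C1 * 4 ^ k := by positivity
            have h15 : C1 * 4 ^ k * 1 ≤ C1 * 4 ^ k * 4 ^ l := mul_le_mul_of_nonneg_left h12 h14.le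
            have h16 : (0 : ℝ) < 4 ^ k * 4 ^ l := by positivity
            nlinarith
          exact mul_le_mul h13 (h4 j) (by positivity) (by positivity)
        -- second term
        have g3 : C2 * (((2 ^ k : ℕ) : ℝ)) ^ (-c0) * (f m (2 ^ k * m) * f (2 ^ k * m) (2 ^ j * m)) ≤
            C2 * (2 : ℝ) ^ (-c0 * (k : ℝ)) * ((C * (2 : ℝ) ^ ((t - 2) * (k : ℝ))) *
              (C' * (2 : ℝ) ^ ((t' - 2) * (i : ℝ)))) := by
          have h6 : (((2 ^ k : ℕ) : ℝ)) ^ (-c0) = (2 : ℝ) ^ (-c0 * (k : ℝ)) := by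
            push_cast
            rw [← Real.rpow_natCast, ← Real.rpow_mul (by norm_num), mul_comm]
          rw [h6]
          apply mul_le_mul_of_nonneg_left _ (by positivity)
          exact mul_le_mul e3 e6 (h0 _ _) (by positivity)
        have g4 : C2 * (2 : ℝ) ^ (-c0 * (k : ℝ)) * ((C * (2 : ℝ) ^ ((t - 2) * (k : ℝ))) *
              (C' * (2 : ℝ) ^ ((t' - 2) * (i : ℝ)))) ≤ C' / 4 * (2 : ℝ) ^ ((t' - 2) * (j : ℝ)) := by
          have h6 : C2 * (2 : ℝ) ^ (-c0 * (k : ℝ)) * ((C * (2 : ℝ) ^ ((t - 2) * (k : ℝ))) *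
              (C' * (2 : ℝ) ^ ((t' - 2) * (i : ℝ)))) =
              C2 * C * C' * (2 : ℝ) ^ (-c0 * (k : ℝ) + (t - 2) * (k : ℝ) + (t' - 2) * (i : ℝ)) := by
            rw [Real.rpow_add (by norm_num), Real.rpow_add (by norm_num)]
            ring
          have h7 : (2 : ℝ) ^ (-c0 * (k : ℝ) + (t - 2) * (k : ℝ) + (t' - 2) * (i : ℝ)) ≤
              (2 : ℝ) ^ (-(c0 / 2) * (k : ℝ) + 2 * (l : ℝ) + (t' - 2) * (j : ℝ)) := by
            apply Real.rpow_le_rpow_of_exponent_le (by norm_num)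
            rw [hi]
            push_cast
            have hk0 : (0 : ℝ) ≤ k := Nat.cast_nonneg _
            have hl0 : (0 : ℝ) ≤ l := Nat.cast_nonneg _
            have h8 : t * (k : ℝ) ≤ (t' + c0 / 2) * k := mul_le_mul_of_nonneg_right ht hk0
            have h9 : 0 ≤ t' * (l : ℝ) := mul_nonneg ht' hl0
            nlinarith
          rw [h6]
          calc C2 * C * C' * (2 : ℝ) ^ (-c0 * (k : ℝ) + (t - 2) * (k : ℝ) + (t' - 2) * (i : ℝ)) ≤
              C2 * C * C' * (2 : ℝ) ^ (-(c0 / 2) * (k : ℝ) + 2 * (l : ℝ) + (t' - 2) * (j : ℝ)) :=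
                mul_le_mul_of_nonneg_left h7 (by positivity)
            _ = (4 * C2 * C * 4 ^ l * (2 : ℝ) ^ (-(c0 / 2) * (k : ℝ))) *
                (C' / 4 * (2 : ℝ) ^ ((t' - 2) * (j : ℝ))) := by
                rw [Real.rpow_add (by norm_num), Real.rpow_add (by norm_num)]
                have h10 : (2 : ℝ) ^ (2 * (l : ℝ)) = 4 ^ l := by
                  rw [Real.rpow_mul (by norm_num), Real.rpow_natCast]
                  norm_num
                rw [h10]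
                ring
            _ ≤ 1 * (C' / 4 * (2 : ℝ) ^ ((t' - 2) * (j : ℝ))) :=
                mul_le_mul_of_nonneg_right hk (by positivity)
            _ = _ := one_mul _
        rw [g1] at e2
        linarith
  refine ⟨C' * 4 ^ l, by positivity, ?_⟩
  intro m j hm
  rcases Nat.lt_or_ge j l with hj | hj
  · refine (h1 _ _).trans ?_
    have h5 : (1 : ℝ) / 4 ^ l ≤ 1 / 4 ^ j :=
      one_div_le_one_div_of_le (by positivity) (pow_le_pow_right₀ (by norm_num) hj.le)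
    have h6 := h5.trans (h4 j)
    have h7 : 1 ≤ C' := by
      rw [hC']
      have : (1 : ℝ) ≤ 4 ^ (k + l) := one_le_pow₀ (by norm_num)
      nlinarith
    calc (1 : ℝ) ≤ C' := h7
      _ = C' * 4 ^ l * (1 / 4 ^ l) := by field_simp
      _ ≤ _ := mul_le_mul_of_nonneg_left h6 (by positivity)
  · obtain ⟨i, hi⟩ : ∃ i : ℕ, j = i + l := ⟨j - l, by omega⟩
    have e1 : f m (2 ^ j * m) ≤ f m (L * (2 ^ i * m)) := by
      apply anti
      · calc m = 1 * (1 * m) := by ring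
          _ ≤ L * (2 ^ i * m) := Nat.mul_le_mul hL (Nat.mul_le_mul_right _ Nat.one_le_two_pow)
      · rw [hi, pow_add]
        calc L * (2 ^ i * m) ≤ 2 ^ l * (2 ^ i * m) := Nat.mul_le_mul_right _ hl
          _ = 2 ^ i * 2 ^ l * m := by ring
    refine e1.trans ((key i m hm).trans ?_)
    rw [mul_assoc]
    apply mul_le_mul_of_nonneg_left _ hC'0
    have h10 : (4 : ℝ) ^ l = (2 : ℝ) ^ (2 * (l : ℝ)) := by
      rw [Real.rpow_mul (by norm_num), Real.rpow_natCast]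
      norm_num
    rw [h10, ← Real.rpow_add (by norm_num)]
    apply Real.rpow_le_rpow_of_exponent_le (by norm_num)
    rw [hi]
    push_cast
    have h9 : 0 ≤ t' * (l : ℝ) := mul_nonneg ht' (Nat.cast_nonneg _)
    nlinarith

/-- The recursion for `m ≥ m1` only. -/
theorem fek3m (f : ℕ → ℕ → ℝ) (h0 : ∀ d k, 0 ≤ f d k) (h1 : ∀ d k, f d k ≤ 1)
    (anti : ∀ d k k', d ≤ k → k ≤ k' → f d k' ≤ f d k)
    (m1 : ℕ) (hm1 : 1 ≤ m1)
    (L : ℕ) (hL : 1 ≤ L) (C1 C2 c0 : ℝ) (hC1 : 0 < C1) (hC2 : 0 < C2) (hc0 : 0 < c0)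
    (hrec : ∀ m K n : ℕ, m1 ≤ m → 1 ≤ K → K * m ≤ n →
      f m (L * n) ≤ C1 * (K:ℝ) ^ 2 * ((m:ℝ) / n) ^ 2 +
        C2 * (K:ℝ) ^ (-c0) * (f m (K * m) * f (K * m) n) + (1/8) * f (2 * m) (L * n)) :
    ∃ C : ℝ, 0 < C ∧ ∀ d k : ℕ, m1 ≤ d → d ≤ k → f d k ≤ C * ((d:ℝ) / k) ^ 2 := by
  have hP : ∀ i : ℕ, PE f m1 (max (2 - (i : ℝ) * (c0 / 2)) 0) := by
    intro i
    induction i with
    | zero =>
      have h2 : max (2 - ((0 : ℕ) : ℝ) * (c0 / 2)) 0 = 2 := by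
        rw [Nat.cast_zero, zero_mul, sub_zero]
        exact max_eq_left (by norm_num)
      rw [h2]
      exact PE_two f m1 h1
    | succ i ih =>
      refine PE_step f h0 h1 anti m1 hm1 L hL C1 C2 c0 hC1 hC2 hc0 hrec _ _ (le_max_right _ _) ?_ ih
      push_cast
      apply max_le
      · have h2 := le_max_left (2 - ((i : ℝ) + 1) * (c0 / 2)) 0
        linarith
      · have h2 := le_max_right (2 - ((i : ℝ) + 1) * (c0 / 2)) 0
        linarith
  obtain ⟨i, hi⟩ := exists_nat_ge (4 / c0)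
  have hi2 : max (2 - (i : ℝ) * (c0 / 2)) 0 = 0 := by
    apply max_eq_right
    rw [div_le_iff₀ hc0] at hi
    linarith
  have hP0 := hP i
  rw [hi2] at hP0
  obtain ⟨C, hC0, hC⟩ := hP0
  refine ⟨4 * C + 1, by positivity, ?_⟩
  intro d k hd' hdk
  have hd : 1 ≤ d := hm1.trans hd'
  have hd0 : (0 : ℝ) < d := by exact_mod_cast hd
  have hk0 : (0 : ℝ) < k := by exact_mod_cast (by omega : 0 < k)
  obtain ⟨j, hj⟩ : ∃ j : ℕ, j = Nat.log 2 (k / d) := ⟨_, rfl⟩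
  have hq : k / d ≠ 0 := by
    have := Nat.div_pos hdk hd
    omega
  have e1 : 2 ^ j * d ≤ k := by
    have h2 : 2 ^ j ≤ k / d := by rw [hj]; exact Nat.pow_log_le_self 2 hq
    exact (Nat.mul_le_mul_right d h2).trans (Nat.div_mul_le_self k d)
  have e2 : k < 2 ^ (j + 1) * d := by
    have h2 : k / d < 2 ^ (j + 1) := by rw [hj]; exact Nat.lt_pow_succ_log_self (by norm_num) _
    exact (Nat.div_lt_iff_lt_mul hd).1 h2
  have e3 : f d k ≤ f d (2 ^ j * d) := by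
    apply anti _ _ _ _ e1
    calc d = 1 * d := by ring
      _ ≤ 2 ^ j * d := Nat.mul_le_mul_right _ Nat.one_le_two_pow
  have e4 := hC d j hd'
  have e5 : (2 : ℝ) ^ (((0 : ℝ) - 2) * (j : ℝ)) = 4 * (1 / 2 ^ (j + 1)) ^ 2 := by
    rw [Real.rpow_mul (by norm_num), Real.rpow_natCast, zero_sub, Real.rpow_neg (by norm_num)]
    have h4 : (2 : ℝ) ^ (2 : ℝ) = 4 := by norm_num
    have h5 : (4 : ℝ) ^ j = (2 ^ j) ^ 2 := by
      rw [← pow_mul, mul_comm, pow_mul]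
      norm_num
    rw [h4, inv_pow, h5]
    have h6 : (0 : ℝ) < 2 ^ j := by positivity
    have h7 : (2 : ℝ) ^ (j + 1) = 2 ^ j * 2 := pow_succ 2 j
    rw [h7]
    field_simp
    norm_num
  have e6 : (1 : ℝ) / 2 ^ (j + 1) ≤ (d : ℝ) / k := by
    rw [div_le_div_iff₀ (by positivity) hk0, one_mul, mul_comm]
    exact_mod_cast e2.le
  have e7 : ((1 : ℝ) / 2 ^ (j + 1)) ^ 2 ≤ ((d : ℝ) / k) ^ 2 := pow_le_pow_left₀ (by positivity) e6 2
  rw [e5] at e4
  have e8 : 0 ≤ ((d : ℝ) / k) ^ 2 := by positivity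
  calc f d k ≤ C * (4 * (1 / 2 ^ (j + 1)) ^ 2) := e3.trans e4
    _ ≤ C * (4 * ((d : ℝ) / k) ^ 2) := by
        apply mul_le_mul_of_nonneg_left _ hC0
        linarith
    _ ≤ (4 * C + 1) * ((d : ℝ) / k) ^ 2 := by nlinarith

theorem fek3 (f : ℕ → ℕ → ℝ) (h0 : ∀ d k, 0 ≤ f d k) (h1 : ∀ d k, f d k ≤ 1)
    (anti : ∀ d k k', d ≤ k → k ≤ k' → f d k' ≤ f d k)
    (L : ℕ) (hL : 1 ≤ L) (C1 C2 c0 : ℝ) (hC1 : 0 < C1) (hC2 : 0 < C2) (hc0 : 0 < c0)
    (hrec : ∀ m K n : ℕ, 1 ≤ m → 1 ≤ K → K * m ≤ n →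
      f m (L * n) ≤ C1 * (K:ℝ) ^ 2 * ((m:ℝ) / n) ^ 2 +
        C2 * (K:ℝ) ^ (-c0) * (f m (K * m) * f (K * m) n) + (1/8) * f (2 * m) (L * n)) :
    ∃ C : ℝ, 0 < C ∧ ∀ d k : ℕ, 1 ≤ d → d ≤ k → f d k ≤ C * ((d:ℝ) / k) ^ 2 :=
  fek3m f h0 h1 anti 1 le_rfl L hL C1 C2 c0 hC1 hC2 hc0 hrec

end Pool.Agent.TH126.FA
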